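import Pool.Agent.W940.LSD.Stm
import Pool.Agent.Helper923.HMertens

/-! Project LS, part DENS: Mertens for `LL (yy T)`. -/

set_option autoImplicit false

namespace Pool.Agent.W291.LSD

open Finset Filter Pool.Agent.W307.LS Pool.Agent.W940.LSD

open scoped Classical

theorem LL_eq (y : ℕ) : LL y = ∑ p ∈ (Finset.Ioc 2 y).filter Nat.Prime, (1 : ℝ) / p := by
  unfold LL PP
  refine Finset.sum_congr ?_ fun _ _ => rfl
  ext p
  simp only [Finset.mem_filter, Finset.mem_range, Finset.mem_Ioc]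
  constructor
  · rintro ⟨h1, h2, h3⟩
    have := h2.two_le
    exact ⟨⟨by omega, by omega⟩, h2⟩
  · rintro ⟨⟨h1, h2⟩, h3⟩
    exact ⟨by omega, h3, by omega⟩

theorem mer_ : MER := by
  obtain ⟨C, hC0, hC⟩ := Pool.Agent.Helper923.HMertens.mertens_ratio
  have hl2 : 0 < Real.log 2 := Real.log_pos (by norm_num)
  refine ⟨C / Real.log 2 + |Real.log (Real.log 2)| + Real.log 16, ?_⟩
  filter_upwards [Filter.eventually_ge_atTop 256] with T hT
  set y := yy T with hy
  have hy2 : 2 ≤ y := by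
    have h1 : 16 ≤ T.sqrt := Nat.le_sqrt.2 (by omega)
    have h2 : 4 ≤ T.sqrt.sqrt := Nat.le_sqrt.2 (by omega)
    exact Nat.le_sqrt.2 (by omega)
  have hyT : y ≤ T :=
    (Nat.sqrt_le_self _).trans ((Nat.sqrt_le_self _).trans (Nat.sqrt_le_self _))
  have hTy : T < (y + 1) ^ 8 := by
    have h1 : T < (T.sqrt + 1) ^ 2 := by have := Nat.lt_succ_sqrt T; rw [pow_two]; exact this
    have h2 : T.sqrt + 1 ≤ (T.sqrt.sqrt + 1) ^ 2 := by
      have := Nat.lt_succ_sqrt T.sqrt; rw [pow_two]; exact this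
    have h3 : T.sqrt.sqrt + 1 ≤ (y + 1) ^ 2 := by
      have := Nat.lt_succ_sqrt T.sqrt.sqrt; rw [pow_two]; exact this
    calc T < (T.sqrt + 1) ^ 2 := h1
      _ ≤ ((T.sqrt.sqrt + 1) ^ 2) ^ 2 := Nat.pow_le_pow_left h2 2
      _ ≤ (((y + 1) ^ 2) ^ 2) ^ 2 := Nat.pow_le_pow_left (Nat.pow_le_pow_left h3 2) 2
      _ = (y + 1) ^ 8 := by ring
  have hT16 : T ≤ y ^ 16 := by
    have h1 : y + 1 ≤ y ^ 2 := by nlinarith
    calc T ≤ (y + 1) ^ 8 := hTy.le
      _ ≤ (y ^ 2) ^ 8 := Nat.pow_le_pow_left h1 8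
      _ = y ^ 16 := by ring
  have hypos : (0 : ℝ) < y := by exact_mod_cast (by omega : 0 < y)
  have hTpos : (0 : ℝ) < T := by exact_mod_cast (by omega : 0 < T)
  have hly : 0 < Real.log y := Real.log_pos (by exact_mod_cast (by omega : 1 < y))
  have hlT1 : Real.log y ≤ Real.log T := Real.log_le_log hypos (by exact_mod_cast hyT)
  have hlT2 : Real.log T ≤ 16 * Real.log y := by
    have h1 : Real.log T ≤ Real.log ((y : ℝ) ^ 16) :=
      Real.log_le_log hTpos (by exact_mod_cast hT16)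
    rw [Real.log_pow] at h1
    exact_mod_cast h1
  have hlT : 0 < Real.log T := lt_of_lt_of_le hly hlT1
  have hll1 : Real.log (Real.log y) ≤ Real.log (Real.log T) := Real.log_le_log hly hlT1
  have hll2 : Real.log (Real.log T) ≤ Real.log 16 + Real.log (Real.log y) := by
    rw [← Real.log_mul (by norm_num) hly.ne']
    exact Real.log_le_log hlT hlT2
  have h1 := hC 2 y le_rfl hy2
  rw [← LL_eq, Nat.cast_ofNat, Real.log_div hly.ne' hl2.ne', abs_le] at h1
  have h4 := neg_abs_le (Real.log (Real.log 2))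
  have h5 := le_abs_self (Real.log (Real.log 2))
  have h6 : 0 < Real.log 16 := Real.log_pos (by norm_num)
  rw [abs_le]
  constructor
  · linarith [h1.1]
  · linarith [h1.2]

end Pool.Agent.W291.LSD
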